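import Pool.Agent.Y224.AZ.Stm

set_option autoImplicit false

/-!
# AZ-DIM: the dimension of the Lie algebra of skew operators
-/


namespace Pool.Agent.Y407.AZ

open Module Pool.Agent.Y224.AZ

/-- the functional `y ↦ B (y u) v + B u (y v)` -/
noncomputable def fn {K V : Type} [Field K] [AddCommGroup V] [Module K V]
    (B : V →ₗ[K] V →ₗ[K] K) (u v : V) : End K V →ₗ[K] K where
  toFun y := B (y u) v + B u (y v)
  map_add' y z := by
    rw [LinearMap.add_apply, LinearMap.add_apply, map_add, map_add, LinearMap.add_apply]
    ring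
  map_smul' c y := by
    rw [LinearMap.smul_apply, LinearMap.smul_apply, map_smul, map_smul, LinearMap.smul_apply,
      smul_eq_mul, smul_eq_mul, RingHom.id_apply, smul_eq_mul]
    ring

theorem t_dim : Pool.Agent.Y224.AZ.S_DIM := by
  intro K V _ _ _ _ _ B halt _
  have hneg : ∀ u v, B u v = - B v u := by
    intro u v
    have h1 := halt (u + v)
    rw [map_add, map_add, LinearMap.add_apply, LinearMap.add_apply, halt, halt] at h1
    linear_combination h1
  obtain ⟨d, hd⟩ : ∃ d, d = finrank K V := ⟨_, rfl⟩
  have b : Basis (Fin d) K V := (finBasis K V).reindex (finCongr hd.symm)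
  let R : End K V →ₗ[K] ((Σ i : Fin d, Fin i.1) → K) :=
    LinearMap.pi fun p => fn B (b p.1) (b ⟨p.2.1, p.2.2.trans p.1.2⟩)
  have hker : LinearMap.ker R ≤ sk B := by
    intro y hy u v
    rw [LinearMap.mem_ker] at hy
    have h1 : ∀ i j : Fin d, j.1 < i.1 → B (y (b i)) (b j) + B (b i) (y (b j)) = 0 := by
      intro i j hij
      exact congrFun hy ⟨i, ⟨j.1, hij⟩⟩
    have h2 : ∀ i j : Fin d, B (y (b i)) (b j) + B (b i) (y (b j)) = 0 := by
      intro i j
      rcases lt_trichotomy i.1 j.1 with h | h | h
      · have h3 := h1 j i h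
        rw [hneg (y (b j)) (b i), hneg (b j) (y (b i))] at h3
        linear_combination - h3
      · have h4 : i = j := Fin.ext h
        rw [h4, hneg (b j) (y (b j))]
        ring
      · exact h1 i j h
    have h3 : B.comp y + B.compl₂ y = 0 := by
      refine b.ext fun i => b.ext fun j => ?_
      exact h2 i j
    have h4 := LinearMap.congr_fun (LinearMap.congr_fun h3 u) v
    exact h4
  have h5 := LinearMap.finrank_range_add_finrank_ker R
  have h6 : finrank K (LinearMap.range R) ≤ finrank K ((Σ i : Fin d, Fin i.1) → K) :=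
    Submodule.finrank_le _
  have h7 : finrank K (LinearMap.ker R) ≤ finrank K (sk B) := Submodule.finrank_mono hker
  rw [finrank_fintype_fun_eq_card, Fintype.card_sigma] at h6
  simp only [Fintype.card_fin] at h6
  rw [Fin.sum_univ_eq_sum_range (fun i => i) d] at h6
  have h8 := Finset.sum_range_id_mul_two d
  rw [finrank_linearMap, ← hd] at h5
  rw [← hd]
  rcases d with _ | d
  · simp
  · rw [Nat.add_sub_cancel] at h8
    nlinarith

end Pool.Agent.Y407.AZ
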